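import Pool.Agent.Cub6.Def

/-!
# No bad prime divides `y`, `z - 1`, `z + 1`

Modulo `p` we have `x ^ 3 + 6 = y ^ 2 (1 - z ^ 2) = 0`, so `(- x) ^ 3 = 6`.
-/

namespace Pool.Agent.Cub6

theorem not_dvd {p : ℕ} (hp : p ∈ Bad) {x y z : ℤ} (h : 6 + x ^ 3 - y ^ 2 + y ^ 2 * z ^ 2 = 0) :
    ¬ (p : ℤ) ∣ y ∧ ¬ (p : ℤ) ∣ z - 1 ∧ ¬ (p : ℤ) ∣ z + 1 := by
  have key : ¬ (p : ℤ) ∣ 6 + x ^ 3 := by
    intro hd
    have h1 : ((6 + x ^ 3 : ℤ) : ZMod p) = 0 := (ZMod.intCast_zmod_eq_zero_iff_dvd _ p).2 hd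
    push_cast at h1
    apply hp.2 (-(x : ZMod p))
    linear_combination -h1
  have e : 6 + x ^ 3 = y * (y * ((1 - z) * (1 + z))) := by linear_combination h
  refine ⟨fun hd => key ?_, fun hd => key ?_, fun hd => key ?_⟩
  · rw [e]
    exact hd.mul_right _
  · rw [e]
    obtain ⟨k, hk⟩ := hd
    exact ⟨-(y * (y * (k * (1 + z)))), by linear_combination -(y * (y * (1 + z))) * hk⟩
  · rw [e]
    obtain ⟨k, hk⟩ := hd
    exact ⟨y * (y * ((1 - z) * k)), by linear_combination (y * (y * (1 - z))) * hk⟩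

end Pool.Agent.Cub6
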