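import Pool.Agent.Lib.QuadSymbols

/-!
# The field of the cube roots of unity

`K = QuadraticAlgebra ℚ (-3) 0` or `CyclotomicField 3 ℚ` (take one in `Type`), degree `2`, `w` a primitive cube root of unity. `6` is not a cube in `K`: a root `c` of `X ^ 3 - 6` has degree `3` over `ℚ` (Eisenstein at `2`, or no rational root), and `3` does not divide `2`.
-/

open NumberField IsDedekindDomain Filter Topology Finset

namespace Pool.Agent.Cub6

theorem no_cube_rat (b : ℚ) : b ^ 3 ≠ 6 := by
  intro h
  have hb : b ≠ 0 := by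
    rintro rfl
    norm_num at h
  have : Fact (Nat.Prime 2) := ⟨Nat.prime_two⟩
  have h1 : padicValRat 2 (b ^ 3) = 3 * padicValRat 2 b := by
    rw [padicValRat.pow]
    rfl
  have h2 : padicValRat 2 (6 : ℚ) = 1 := by
    rw [show (6 : ℚ) = 2 * 3 by norm_num, padicValRat.mul (by norm_num) (by norm_num)]
    have e1 : padicValRat 2 (2 : ℚ) = 1 := by
      exact_mod_cast padicValRat.self (p := 2) (by norm_num)
    have e2 : padicValRat 2 (3 : ℚ) = 0 := by
      have : padicValNat 2 3 = 0 := padicValNat.eq_zero_of_not_dvd (by norm_num)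
      have h3 : padicValRat 2 ((3 : ℕ) : ℚ) = (padicValNat 2 3 : ℤ) := padicValRat.of_nat
      rw [this] at h3
      exact_mod_cast h3
    rw [e1, e2]
    rfl
  rw [h, h2] at h1
  omega

theorem exists_cyc : ∃ (K : Type) (_ : Field K) (_ : NumberField K) (w : 𝓞 K),
    w ^ 2 + w + 1 = 0 ∧ Module.finrank ℚ K = 2 ∧ ∀ c : K, c ^ 3 ≠ 6 := by
  have h0 : NeZero ((3 : ℕ) : ℚ) := ⟨by norm_num⟩
  have hext : IsCyclotomicExtension {3} ℚ (CyclotomicField 3 ℚ) :=
    CyclotomicField.isCyclotomicExtension 3 ℚ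
  have hz := IsCyclotomicExtension.zeta_spec 3 ℚ (CyclotomicField 3 ℚ)
  have hfin : Module.finrank ℚ (CyclotomicField 3 ℚ) = 2 := by
    rw [IsCyclotomicExtension.finrank (n := 3) (CyclotomicField 3 ℚ)
      (Polynomial.cyclotomic.irreducible_rat (by norm_num))]
    decide
  refine ⟨CyclotomicField 3 ℚ, inferInstance, inferInstance, hz.toInteger, ?_, hfin, ?_⟩
  · have h1 := hz.toInteger_isPrimitiveRoot
    have h2 : (hz.toInteger - 1) * (hz.toInteger ^ 2 + hz.toInteger + 1) = 0 := by
      have := h1.pow_eq_one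
      linear_combination this
    rcases mul_eq_zero.1 h2 with h3 | h3
    · exact absurd (sub_eq_zero.1 h3) (h1.ne_one (by norm_num))
    · exact h3
  · intro c hc
    have hirr : Irreducible (Polynomial.X ^ 3 - Polynomial.C (6 : ℚ)) :=
      X_pow_sub_C_irreducible_of_prime Nat.prime_three no_cube_rat
    have hmin : Polynomial.X ^ 3 - Polynomial.C (6 : ℚ) = minpoly ℚ c := by
      apply minpoly.eq_of_irreducible_of_monic hirr
      · simp [hc]
      · exact Polynomial.monic_X_pow_sub_C _ (by norm_num)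
    have hdeg : (minpoly ℚ c).natDegree = 3 := by
      rw [← hmin, Polynomial.natDegree_X_pow_sub_C]
    have hdvd : (minpoly ℚ c).natDegree ∣ Module.finrank ℚ (CyclotomicField 3 ℚ) :=
      minpoly.degree_dvd (Algebra.IsIntegral.isIntegral c)
    rw [hdeg, hfin] at hdvd
    omega

end Pool.Agent.Cub6
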