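import Mathlib

/-!
# The primes modulo which 6 is not a cube: definition
-/

namespace Pool.Agent.Cub6

/-- The primes modulo which `6` is not a cube. -/
def Bad : Set ℕ := {p | p.Prime ∧ ∀ c : ZMod p, c ^ 3 ≠ 6}

end Pool.Agent.Cub6
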