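import Mathlib

/-!
# Integers without prime factors in a set with divergent sum of reciprocals

For a finite subset `T` of `B` the number of `m` in `[- N, N]` without divisor in `T` is at most `(2 N + 1) ∏ (1 - 1 / p) + M`, `M = ∏ p`
(the condition depends on `m` modulo `M`, count a period: Chinese remainder theorem, or `Nat.totient` of the squarefree number `M`: the number of residues coprime to `M` is `φ M = M ∏ (1 - 1 / p)`), and `∏ (1 - 1 / p) ≤ exp (- ∑ 1 / p)` is small because the sum is not summable.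
-/

open Finset

namespace Pool.Agent.Cub6

open Classical in
theorem exists_finset_sum {B : Set ℕ}
    (h : ¬ Summable (B.indicator fun p : ℕ => (1 : ℝ) / p)) (C : ℝ) :
    ∃ T : Finset ℕ, (∀ p ∈ T, p ∈ B) ∧ C ≤ ∑ p ∈ T, (1 : ℝ) / p := by
  have h0 : ∀ n, 0 ≤ B.indicator (fun p : ℕ => (1 : ℝ) / p) n := fun n =>
    Set.indicator_nonneg (fun p _ => by positivity) n
  have h1 := (not_summable_iff_tendsto_nat_atTop_of_nonneg h0).1 h
  obtain ⟨n, hn⟩ := (h1.eventually (Filter.eventually_ge_atTop C)).exists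
  refine ⟨(Finset.range n).filter (· ∈ B), fun p hp => (Finset.mem_filter.1 hp).2, hn.trans ?_⟩
  rw [Finset.sum_filter]
  exact le_of_eq (Finset.sum_congr rfl fun p _ => by rw [Set.indicator_apply])

theorem card_coprime_le {T : Finset ℕ} (hT : ∀ p ∈ T, p.Prime) {B : Set ℕ}
    (hB : ∀ p ∈ T, p ∈ B) (N : ℕ) [DecidablePred fun m : ℤ => ∀ p ∈ B, ¬ (p : ℤ) ∣ m] :
    ((Finset.Icc (-(N : ℤ)) N).filter fun m => ∀ p ∈ B, ¬ (p : ℤ) ∣ m).card ≤
      (∏ p ∈ T, p).totient * ((2 * N + 1) / (∏ p ∈ T, p) + 1) := by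
  set M := ∏ p ∈ T, p with hM
  have hM0 : 0 < M := Finset.prod_pos fun p hp => (hT p hp).pos
  have hNM : N ≤ N * M := Nat.le_mul_of_pos_right N hM0
  refine le_trans ?_ (Nat.Ico_filter_coprime_le (N * M - N) (2 * N + 1) hM0.ne')
  refine Finset.card_le_card_of_injOn (fun m => (m + (N * M : ℕ)).toNat) ?_ ?_
  · intro m hm
    have hm' := Finset.mem_filter.1 (Finset.mem_coe.1 hm)
    have hm1 := Finset.mem_Icc.1 hm'.1
    have hx : ((m + (N * M : ℕ)).toNat : ℤ) = m + (N * M : ℕ) := Int.toNat_of_nonneg (by omega)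
    refine Finset.mem_coe.2 (Finset.mem_filter.2 ⟨Finset.mem_Ico.2 ⟨?_, ?_⟩, ?_⟩)
    · dsimp only
      omega
    · dsimp only
      omega
    · refine Nat.Coprime.prod_left fun p hp => ?_
      rw [(hT p hp).coprime_iff_not_dvd]
      intro hdvd
      refine hm'.2 p (hB p hp) ?_
      have h1 : (p : ℤ) ∣ m + (N * M : ℕ) := by
        rw [← hx]
        exact_mod_cast hdvd
      have h2 : (p : ℤ) ∣ ((N * M : ℕ) : ℤ) := by
        exact_mod_cast (Finset.dvd_prod_of_mem _ hp).mul_left N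
      exact (Int.dvd_add_left h2).1 h1
  · intro a ha b hb hab
    have ha1 := Finset.mem_Icc.1 (Finset.mem_filter.1 (Finset.mem_coe.1 ha)).1
    have hb1 := Finset.mem_Icc.1 (Finset.mem_filter.1 (Finset.mem_coe.1 hb)).1
    dsimp only at hab
    omega

theorem totient_prod {T : Finset ℕ} (hT : ∀ p ∈ T, p.Prime) :
    ((∏ p ∈ T, p).totient : ℝ) = ((∏ p ∈ T, p : ℕ) : ℝ) * ∏ p ∈ T, (1 - (1 : ℝ) / p) := by
  have h1 := Nat.totient_eq_mul_prod_factors (∏ p ∈ T, p)
  rw [Nat.primeFactors_prod hT] at h1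
  have h2 := congrArg (fun q : ℚ => (q : ℝ)) h1
  push_cast at h2 ⊢
  simpa [one_div] using h2

open Classical in
theorem dens {B : Set ℕ} (hB : ∀ p ∈ B, p.Prime)
    (h : ¬ Summable (B.indicator fun p : ℕ => (1 : ℝ) / p)) {ε : ℝ} (hε : 0 < ε) :
    ∃ N0 : ℕ, ∀ N : ℕ, N0 ≤ N →
      (((Finset.Icc (-(N : ℤ)) N).filter fun m => ∀ p ∈ B, ¬ (p : ℤ) ∣ m).card : ℝ) ≤ ε * N := by
  obtain ⟨T, hTB, hT⟩ := exists_finset_sum h (Real.log (6 / ε))
  have hTp : ∀ p ∈ T, p.Prime := fun p hp => hB p (hTB p hp)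
  set M := ∏ p ∈ T, p with hM
  have hM0 : 0 < M := Finset.prod_pos fun p hp => (hTp p hp).pos
  have hMr : (0 : ℝ) < M := by exact_mod_cast hM0
  have hprod : ∏ p ∈ T, (1 - (1 : ℝ) / p) ≤ ε / 6 := by
    calc ∏ p ∈ T, (1 - (1 : ℝ) / p) ≤ ∏ p ∈ T, Real.exp (-((1 : ℝ) / p)) := by
          refine Finset.prod_le_prod (fun p hp => ?_) fun p hp => ?_
          · have : (1 : ℝ) / p ≤ 1 := by
              rw [div_le_one (by exact_mod_cast (hTp p hp).pos)]
              exact_mod_cast (hTp p hp).one_le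
            linarith
          · have := Real.add_one_le_exp (-((1 : ℝ) / p))
            linarith
      _ = Real.exp (-∑ p ∈ T, (1 : ℝ) / p) := by
          rw [← Real.exp_sum, Finset.sum_neg_distrib]
      _ ≤ Real.exp (-Real.log (6 / ε)) := Real.exp_le_exp.2 (by linarith)
      _ = ε / 6 := by
          rw [Real.exp_neg, Real.exp_log (by positivity), inv_div]
  have hprod0 : 0 ≤ ∏ p ∈ T, (1 - (1 : ℝ) / p) := by
    refine Finset.prod_nonneg fun p hp => ?_
    have : (1 : ℝ) / p ≤ 1 := by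
      rw [div_le_one (by exact_mod_cast (hTp p hp).pos)]
      exact_mod_cast (hTp p hp).one_le
    linarith
  have htot := totient_prod hTp
  refine ⟨max 1 ⌈2 * (M : ℝ) / ε⌉₊, fun N hN => ?_⟩
  have hN1 : (1 : ℝ) ≤ N := by exact_mod_cast (le_max_left _ _).trans hN
  have hN2 : 2 * (M : ℝ) / ε ≤ N := (Nat.le_ceil _).trans (by exact_mod_cast (le_max_right _ _).trans hN)
  have hN3 : 2 * (M : ℝ) ≤ ε * N := by
    rw [div_le_iff₀ hε] at hN2
    linarith
  have hc : (((Finset.Icc (-(N : ℤ)) N).filter fun m => ∀ p ∈ B, ¬ (p : ℤ) ∣ m).card : ℝ) ≤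
      (M.totient : ℝ) * (((2 * N + 1) / M : ℕ) + 1) := by
    exact_mod_cast card_coprime_le hTp hTB N
  have hdiv : (((2 * N + 1) / M : ℕ) : ℝ) ≤ (2 * N + 1) / M := by
    have := @Nat.cast_div_le ℝ _ _ _ (2 * N + 1) M
    push_cast at this
    exact this
  have htot2 : (M.totient : ℝ) ≤ M := by exact_mod_cast Nat.totient_le M
  calc (((Finset.Icc (-(N : ℤ)) N).filter fun m => ∀ p ∈ B, ¬ (p : ℤ) ∣ m).card : ℝ)
      ≤ (M.totient : ℝ) * (((2 * N + 1) / M : ℕ) + 1) := hc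
    _ ≤ (M.totient : ℝ) * ((2 * N + 1) / M + 1) := by gcongr
    _ = (M.totient : ℝ) / M * (2 * N + 1) + M.totient := by
        field_simp
    _ ≤ ε / 6 * (2 * N + 1) + M := by
        have : (M.totient : ℝ) / M = ∏ p ∈ T, (1 - (1 : ℝ) / p) := by
          rw [hM, htot, ← hM, mul_comm, mul_div_assoc, div_self hMr.ne', mul_one]
        rw [this]
        have h5 : (0 : ℝ) ≤ 2 * N + 1 := by positivity
        nlinarith [mul_le_mul_of_nonneg_right hprod h5]
    _ ≤ ε * N := by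
        nlinarith

end Pool.Agent.Cub6
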