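import Pool.Agent.Lib.QuadSymbols

/-!
# The cubic extension

`X ^ 3 - b` is irreducible over `K` (degree `3`, no root), `L = AdjoinRoot (X ^ 3 - C b)`, `β` the root; the automorphism sends `β` to `w β` (`AdjoinRoot.liftAlgHom`, bijective because of the degree). `NumberField.of_module_finite`; integrality: `IsIntegral.of_pow`; `RingOfIntegers.mapRingEquiv` (see `exists_quad` in Lib/QuadSymbols.lean).
-/

open NumberField IsDedekindDomain Filter Topology Finset

namespace Pool.Agent.Cub6

theorem exists_cubic (K : Type) [Field K] [NumberField K] (b w : 𝓞 K) (hw : w ^ 2 + w + 1 = 0)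
    (hb : ∀ c : K, c ^ 3 ≠ (b : K)) :
    ∃ (L : Type) (_ : Field L) (_ : NumberField L) (_ : Algebra K L) (β : 𝓞 L) (σ : 𝓞 L ≃+* 𝓞 L),
      Module.finrank K L = 3 ∧ β ^ 3 = algebraMap (𝓞 K) (𝓞 L) b ∧
      (∀ x : 𝓞 K, σ (algebraMap (𝓞 K) (𝓞 L) x) = algebraMap (𝓞 K) (𝓞 L) x) ∧
      σ β = algebraMap (𝓞 K) (𝓞 L) w * β := by
  have hirr : Irreducible (Polynomial.X ^ 3 - Polynomial.C (b : K)) :=
    X_pow_sub_C_irreducible_of_prime Nat.prime_three hb
  obtain ⟨f, hf⟩ : ∃ f : Polynomial K, f = Polynomial.X ^ 3 - Polynomial.C (b : K) := ⟨_, rfl⟩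
  rw [← hf] at hirr
  have hfact : Fact (Irreducible f) := ⟨hirr⟩
  let L := AdjoinRoot f
  have hfin : Module.Finite K L := (AdjoinRoot.powerBasis hirr.ne_zero).finite
  have hdeg : Module.finrank K L = 3 := by
    rw [(AdjoinRoot.powerBasis hirr.ne_zero).finrank, AdjoinRoot.powerBasis_dim, hf,
      Polynomial.natDegree_X_pow_sub_C]
  have hN : NumberField L := NumberField.of_module_finite K L
  let ω : L := AdjoinRoot.root f
  have hω : ω ^ 3 = algebraMap K L (b : K) := by
    have h1 : Polynomial.aeval ω f = 0 := by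
      change Polynomial.aeval (AdjoinRoot.root f) f = 0
      rw [AdjoinRoot.aeval_eq, AdjoinRoot.mk_self]
    have h2 := congrArg (Polynomial.aeval ω) hf
    rw [h1, map_sub, map_pow, Polynomial.aeval_X, Polynomial.aeval_C] at h2
    exact (sub_eq_zero.1 h2.symm)
  have hint : IsIntegral ℤ ω := by
    have h1 : IsIntegral ℤ (algebraMap K L (b : K)) := b.2.map (algebraMap K L).toIntAlgHom
    rw [← hω] at h1
    exact h1.of_pow (by norm_num)
  have hw1 : (w : K) ^ 2 + (w : K) + 1 = 0 := by exact_mod_cast congrArg (algebraMap (𝓞 K) K) hw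
  have hw3 : (w : K) ^ 3 = 1 := by linear_combination ((w : K) - 1) * hw1
  let ω' : L := algebraMap K L (w : K) * ω
  have hω' : ω' ^ 3 = algebraMap K L (b : K) := by
    change (algebraMap K L (w : K) * ω) ^ 3 = _
    rw [mul_pow, ← map_pow, hw3, map_one, one_mul, hω]
  have hroot : Polynomial.eval₂ (algebraMap K L) ω' f = 0 := by
    refine (congrArg (Polynomial.eval₂ (algebraMap K L) ω') hf).trans ?_
    rw [Polynomial.eval₂_sub, Polynomial.eval₂_pow, Polynomial.eval₂_X, Polynomial.eval₂_C,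
      hω', sub_self]
  let τ : L →ₐ[K] L := AdjoinRoot.liftAlgHom f (Algebra.ofId K L) ω' hroot
  have hτ : τ ω = ω' := AdjoinRoot.liftAlgHom_root f (Algebra.ofId K L) ω' hroot
  have hinj : Function.Injective τ := τ.toRingHom.injective
  have hsurj : Function.Surjective τ :=
    (LinearMap.injective_iff_surjective (f := τ.toLinearMap)).1 hinj
  let σ₀ : L ≃+* L := RingEquiv.ofBijective τ ⟨hinj, hsurj⟩
  refine ⟨L, inferInstance, hN, inferInstance, ⟨ω, hint⟩, RingOfIntegers.mapRingEquiv σ₀,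
    hdeg, ?_, ?_, ?_⟩
  · apply RingOfIntegers.ext
    exact hω
  · intro x
    apply RingOfIntegers.ext
    change τ (algebraMap K L (x : K)) = algebraMap K L (x : K)
    exact τ.commutes _
  · apply RingOfIntegers.ext
    exact hτ

end Pool.Agent.Cub6
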