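import Pool.Agent.Lib.QuadSymbols

/-!
# Primes of a quadratic field over a thin set of rational primes

A prime `q` of `𝓞 K` with `(p : 𝓞 K)` in `q` has norm at least `p`, and there are at most two such `q` for each `p`
(their product divides `(p)`, of norm `p ^ 2`). So `∑ wt K s q` over `T` is at most `2 ∑ 1 / p` over `B`.
-/

open NumberField IsDedekindDomain Filter Topology Finset

namespace Pool.Agent.Cub6

open Pool.Agent.Lib.Dedekind Pool.Agent.Lib.QuadSymbols

/-- the norm of a prime containing `p` is at least `p` -/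
theorem le_absNorm {K : Type} [Field K] [NumberField K] (q : HeightOneSpectrum (𝓞 K)) {p : ℕ}
    (hp : p.Prime) (hq : ((p : ℕ) : 𝓞 K) ∈ q.asIdeal) : p ≤ Ideal.absNorm q.asIdeal := by
  have h0 : Ideal.absNorm q.asIdeal ≠ 0 := by
    rw [Ne, Ideal.absNorm_eq_zero_iff]
    exact q.ne_bot
  by_contra hlt
  push Not at hlt
  have hcop : Nat.Coprime p (Ideal.absNorm q.asIdeal) :=
    (Nat.Prime.coprime_iff_not_dvd hp).2
      (fun hd => absurd (Nat.le_of_dvd (Nat.pos_of_ne_zero h0) hd) (by omega))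
  have h1 : IsCoprime (p : ℤ) (Ideal.absNorm q.asIdeal : ℤ) := Nat.isCoprime_iff_coprime.2 hcop
  obtain ⟨u, v, huv⟩ := h1
  have h2 : ((u * p + v * (Ideal.absNorm q.asIdeal : ℤ) : ℤ) : 𝓞 K) ∈ q.asIdeal := by
    push_cast
    exact q.asIdeal.add_mem (q.asIdeal.mul_mem_left _ hq)
      (q.asIdeal.mul_mem_left _ (Ideal.absNorm_mem q.asIdeal))
  rw [huv, Int.cast_one] at h2
  exact q.isPrime.ne_top ((Ideal.eq_top_iff_one _).2 h2)

/-- at most two primes of a quadratic field contain `p` -/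
theorem card_le {K : Type} [Field K] [NumberField K] (h2 : Module.finrank ℚ K = 2) {p : ℕ}
    (hp : p.Prime) (F : Finset (HeightOneSpectrum (𝓞 K)))
    (hF : ∀ q ∈ F, ((p : ℕ) : 𝓞 K) ∈ q.asIdeal) : F.card ≤ 2 := by
  classical
  have h1 : ∏ I ∈ F.image (fun q => q.asIdeal), I ∣ Ideal.span {((p : ℕ) : 𝓞 K)} := by
    apply Finset.prod_primes_dvd
    · intro I hI
      obtain ⟨q, -, rfl⟩ := Finset.mem_image.1 hI
      exact q.prime
    · intro I hI
      obtain ⟨q, hq, rfl⟩ := Finset.mem_image.1 hI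
      exact Ideal.dvd_iff_le.2 ((Ideal.span_singleton_le_iff_mem _).2 (hF q hq))
  have hinj : Set.InjOn (fun q : HeightOneSpectrum (𝓞 K) => q.asIdeal) (F : Set _) :=
    fun a _ b _ h => HeightOneSpectrum.ext h
  rw [Finset.prod_image hinj] at h1
  have h3 : ∏ q ∈ F, Ideal.absNorm q.asIdeal ∣ p ^ 2 := by
    have := Ideal.absNorm_dvd_absNorm_of_le (Ideal.dvd_iff_le.1 h1)
    rwa [Ideal.absNorm_span_natCast, RingOfIntegers.rank, h2, map_prod] at this
  have h4 : p ^ F.card ≤ ∏ q ∈ F, Ideal.absNorm q.asIdeal := by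
    rw [← Finset.prod_const]
    exact Finset.prod_le_prod' (fun q hq => le_absNorm q hp (hF q hq))
  have h5 : p ^ F.card ≤ p ^ 2 := h4.trans (Nat.le_of_dvd (pow_pos hp.pos 2) h3)
  exact (Nat.pow_le_pow_iff_right hp.one_lt).1 h5

/-- the sum over the primes over a set of rational primes -/
theorem fib_aux {K : Type} [Field K] [NumberField K] (h2 : Module.finrank ℚ K = 2) {B : Set ℕ}
    (hB : ∀ p ∈ B, p.Prime) (hs : Summable (B.indicator fun p : ℕ => (1 : ℝ) / p))
    {T : Set (HeightOneSpectrum (𝓞 K))} (hT : ∀ q ∈ T, ∃ p ∈ B, ((p : ℕ) : 𝓞 K) ∈ q.asIdeal)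
    (w : HeightOneSpectrum (𝓞 K) → ℝ)
    (hw : ∀ q, w q ≤ 1 / (Ideal.absNorm q.asIdeal : ℝ)) (F : Finset (HeightOneSpectrum (𝓞 K))) :
    ∑ q ∈ F, T.indicator w q ≤ 2 * ∑' p, B.indicator (fun p : ℕ => (1 : ℝ) / p) p := by
  classical
  choose! P hPB hPq using hT
  have e1 : ∑ q ∈ F, T.indicator w q = ∑ q ∈ F with q ∈ T, w q := by
    rw [Finset.sum_filter]
    exact Finset.sum_congr rfl (fun q _ => Set.indicator_apply _ _ _)
  rw [e1, ← Finset.sum_fiberwise_of_maps_to (g := P) (t := (F.filter (fun q => q ∈ T)).image P)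
    (fun q hq => Finset.mem_image_of_mem _ hq)]
  have e2 : ∀ p ∈ (F.filter (fun q => q ∈ T)).image P,
      ∑ q ∈ (F.filter (fun q => q ∈ T)) with P q = p, w q ≤
        2 * B.indicator (fun p : ℕ => (1 : ℝ) / p) p := by
    intro p hp
    obtain ⟨q0, hq0, rfl⟩ := Finset.mem_image.1 hp
    have hq0T : q0 ∈ T := (Finset.mem_filter.1 hq0).2
    have hpB : P q0 ∈ B := hPB q0 hq0T
    have hpp := hB _ hpB
    have hp0 : (0 : ℝ) < (P q0 : ℕ) := by exact_mod_cast hpp.pos
    rw [Set.indicator_of_mem hpB]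
    have hc : ((F.filter (fun q => q ∈ T)).filter (fun q => P q = P q0)).card ≤ 2 := by
      apply card_le h2 hpp
      intro q hq
      rw [Finset.mem_filter, Finset.mem_filter] at hq
      rw [← hq.2]
      exact hPq q hq.1.2
    calc ∑ q ∈ (F.filter (fun q => q ∈ T)) with P q = P q0, w q
        ≤ ∑ q ∈ (F.filter (fun q => q ∈ T)) with P q = P q0, 1 / ((P q0 : ℕ) : ℝ) := by
          apply Finset.sum_le_sum
          intro q hq
          rw [Finset.mem_filter, Finset.mem_filter] at hq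
          refine (hw q).trans ?_
          apply one_div_le_one_div_of_le hp0
          have := le_absNorm q (hB _ (hPB q hq.1.2)) (hPq q hq.1.2)
          rw [hq.2] at this
          exact_mod_cast this
      _ = ((F.filter (fun q => q ∈ T)).filter (fun q => P q = P q0)).card * (1 / ((P q0 : ℕ) : ℝ)) := by
          rw [Finset.sum_const, nsmul_eq_mul]
      _ ≤ 2 * (1 / ((P q0 : ℕ) : ℝ)) := by
          apply mul_le_mul_of_nonneg_right _ (by positivity)
          exact_mod_cast hc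
  refine (Finset.sum_le_sum e2).trans ?_
  rw [← Finset.mul_sum]
  apply mul_le_mul_of_nonneg_left _ (by norm_num)
  exact hs.sum_le_tsum _ (fun p _ => Set.indicator_nonneg (fun p _ => by positivity) p)

theorem fib (K : Type) [Field K] [NumberField K] (h2 : Module.finrank ℚ K = 2) {B : Set ℕ}
    (hB : ∀ p ∈ B, p.Prime) (hs : Summable (B.indicator fun p : ℕ => (1 : ℝ) / p))
    {T : Set (HeightOneSpectrum (𝓞 K))} (hT : ∀ q ∈ T, ∃ p ∈ B, ((p : ℕ) : 𝓞 K) ∈ q.asIdeal) :
    ∃ C : ℝ, ∀ s : ℝ, 1 < s → ∑' q : HeightOneSpectrum (𝓞 K), T.indicator (fun q => wt K s q.asIdeal) q ≤ C := by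
  refine ⟨2 * ∑' p, B.indicator (fun p : ℕ => (1 : ℝ) / p) p, fun s hs1 => ?_⟩
  have hsum : Summable (fun q : HeightOneSpectrum (𝓞 K) =>
      T.indicator (fun q => wt K s q.asIdeal) q) := (summable_wt_prime hs1).indicator T
  refine hsum.tsum_le_of_sum_le (fun F => ?_)
  refine fib_aux h2 hB hs hT (fun q => wt K s q.asIdeal) (fun q => ?_) F
  have h0 : 0 < Ideal.absNorm q.asIdeal := by
    rw [Nat.pos_iff_ne_zero, Ne, Ideal.absNorm_eq_zero_iff]
    exact q.ne_bot
  have h1 : (1 : ℝ) ≤ (Ideal.absNorm q.asIdeal : ℝ) := by exact_mod_cast h0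
  unfold wt
  rw [one_div, ← Real.rpow_neg_one]
  exact Real.rpow_le_rpow_of_exponent_le h1 (by linarith)

end Pool.Agent.Cub6
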