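import Pool.Agent.Lib.QuadSymbols

/-!
# Splitting in a cyclic cubic extension

As `lsum_split` in Lib/QuadSymbols.lean. Let `c ^ 3 - b` be in `q`, `b`, `3` not in `q`, so `c` is not in `q`. For a prime `P` over `q` one of the `β - w ^ i c` is in `P` (their product is `b - c ^ 3`). The primes `P`, `P.comap σ`, `P.comap σ ^ 2` are distinct: if two are equal, then (`σ` has order `3` on `β`) `σ x` is in `P` for `x` in `P`, so with `β - w ^ i c`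
also `w β - w ^ i c` is in `P`, and `(1 - w) w ^ i c` is in `P`, so `1 - w` is in `P` and in `q`, but `3 = (1 - w) ^ 2 * unit` is not in `q`. So there are three primes, and `∑ e f = 3` gives `f = 1` for all.
-/

open NumberField IsDedekindDomain Filter Topology Finset

namespace Pool.Agent.Cub6

open Pool.Agent.Lib.Dedekind Pool.Agent.Lib.QuadSymbols

variable {K L : Type*} [Field K] [NumberField K] [Field L] [NumberField L] [Algebra K L]

omit [NumberField K] [NumberField L] in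
theorem cub_prod (b c w : 𝓞 K) (β : 𝓞 L) (hβ : β ^ 3 = algebraMap (𝓞 K) (𝓞 L) b)
    (hw : w ^ 2 + w + 1 = 0) :
    (β - algebraMap (𝓞 K) (𝓞 L) c) * ((β - algebraMap (𝓞 K) (𝓞 L) (w * c)) *
      (β - algebraMap (𝓞 K) (𝓞 L) (w ^ 2 * c))) = algebraMap (𝓞 K) (𝓞 L) (-(c ^ 3 - b)) := by
  have h3 : (algebraMap (𝓞 K) (𝓞 L) w) ^ 2 + algebraMap (𝓞 K) (𝓞 L) w + 1 = 0 := by
    rw [← map_pow, ← map_add, ← map_one (algebraMap (𝓞 K) (𝓞 L)), ← map_add, hw, map_zero]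
  rw [map_neg, map_sub, map_mul, map_mul, map_pow, map_pow, ← hβ]
  set W := algebraMap (𝓞 K) (𝓞 L) w
  set C := algebraMap (𝓞 K) (𝓞 L) c
  linear_combination (-(β ^ 2 * C) + β * W * C ^ 2 - (W - 1) * C ^ 3) * h3

theorem over_ne (q : HeightOneSpectrum (𝓞 K)) (R : q.asIdeal.primesOver (𝓞 L))
    {b c w u : 𝓞 K} {β : 𝓞 L} (hβ : β ^ 3 = algebraMap (𝓞 K) (𝓞 L) b) (hw : w ^ 2 + w + 1 = 0)
    (hu : u ^ 2 + u + 1 = 0)
    (τ : 𝓞 L ≃+* 𝓞 L) (hτ : ∀ x : 𝓞 K, τ (algebraMap (𝓞 K) (𝓞 L) x) = algebraMap (𝓞 K) (𝓞 L) x)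
    (hτβ : τ β = algebraMap (𝓞 K) (𝓞 L) u * β) (hc : c ∉ q.asIdeal) (h3q : (3 : 𝓞 K) ∉ q.asIdeal)
    (hq : c ^ 3 - b ∈ q.asIdeal) : ¬ ∀ x : 𝓞 L, x ∈ R.1 → τ x ∈ R.1 := by
  intro h
  have hqp : q.asIdeal.IsPrime := q.isPrime
  have hRp : R.1.IsPrime := R.2.1
  have hwq : w ∉ q.asIdeal := by
    intro hmem
    apply hqp.ne_top
    rw [Ideal.eq_top_iff_one]
    have : (1 : 𝓞 K) = (-w - 1) * w := by linear_combination hw
    rw [this]
    exact Ideal.mul_mem_left _ _ hmem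
  have huq : 1 - u ∉ q.asIdeal := by
    intro hmem
    apply h3q
    have : (3 : 𝓞 K) = (- (u ^ 2) * (1 - u)) * (1 - u) := by
      linear_combination (u ^ 2 - 3 * u + 3) * hu
    rw [this]
    exact Ideal.mul_mem_left _ _ hmem
  -- the key step
  have key : ∀ v : 𝓞 K, v ∉ q.asIdeal → β - algebraMap (𝓞 K) (𝓞 L) v ∉ R.1 := by
    intro v hv hmem
    have h1 := h _ hmem
    rw [map_sub, hτβ, hτ] at h1
    have h2 : algebraMap (𝓞 K) (𝓞 L) (v * (1 - u)) ∈ R.1 := by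
      have h4 := Ideal.sub_mem _ (Ideal.mul_mem_left _ (algebraMap (𝓞 K) (𝓞 L) u) hmem) h1
      convert h4 using 1
      rw [map_mul, map_sub, map_one]
      ring
    rw [mem_over] at h2
    rcases hqp.mem_or_mem h2 with h3 | h3
    · exact hv h3
    · exact huq h3
  have hprod := cub_prod b c w β hβ hw
  have hmem : (β - algebraMap (𝓞 K) (𝓞 L) c) * ((β - algebraMap (𝓞 K) (𝓞 L) (w * c)) *
      (β - algebraMap (𝓞 K) (𝓞 L) (w ^ 2 * c))) ∈ R.1 := by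
    rw [hprod, mem_over]
    exact neg_mem hq
  rcases hRp.mem_or_mem hmem with h1 | h1
  · exact key c hc h1
  rcases hRp.mem_or_mem h1 with h2 | h2
  · refine key (w * c) (fun h3 => ?_) h2
    rcases hqp.mem_or_mem h3 with h4 | h4
    · exact hwq h4
    · exact hc h4
  · refine key (w ^ 2 * c) (fun h3 => ?_) h2
    rcases hqp.mem_or_mem h3 with h4 | h4
    · exact hwq (hqp.mem_of_pow_mem _ h4)
    · exact hc h4

theorem sum_ef3 (q : HeightOneSpectrum (𝓞 K)) (h3 : Module.finrank K L = 3) :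
    ∑ P : q.asIdeal.primesOver (𝓞 L), P.1.ramificationIdx (𝓞 K) * P.1.inertiaDeg (𝓞 K) = 3 := by
  have : q.asIdeal.IsPrime := q.isPrime
  have h := Ideal.sum_ramification_inertia_eq_finrank (R := 𝓞 K) (S := 𝓞 L) (p := q.asIdeal)
  rw [h, ← h3, IsFractionRing.finrank_eq (𝓞 K) K (𝓞 L) L]

theorem lsum_cubic (s : ℝ) (q : HeightOneSpectrum (𝓞 K)) (h3 : Module.finrank K L = 3)
    {b w : 𝓞 K} {β : 𝓞 L} (hβ : β ^ 3 = algebraMap (𝓞 K) (𝓞 L) b) (hw : w ^ 2 + w + 1 = 0)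
    (σ : 𝓞 L ≃+* 𝓞 L) (hσ : ∀ x : 𝓞 K, σ (algebraMap (𝓞 K) (𝓞 L) x) = algebraMap (𝓞 K) (𝓞 L) x)
    (hσβ : σ β = algebraMap (𝓞 K) (𝓞 L) w * β) (hb : b ∉ q.asIdeal) (h3q : (3 : 𝓞 K) ∉ q.asIdeal)
    (hq : ∃ c : 𝓞 K, c ^ 3 - b ∈ q.asIdeal) : lsum L s q = 3 * wt K s q.asIdeal := by
  classical
  obtain ⟨c, hc⟩ := hq
  have hqp : q.asIdeal.IsPrime := q.isPrime
  have hcq : c ∉ q.asIdeal := by
    intro h
    apply hb
    have : b = c ^ 2 * c - (c ^ 3 - b) := by ring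
    rw [this]
    exact Ideal.sub_mem _ (Ideal.mul_mem_left _ _ h) hc
  have hsum := sum_ef3 (L := L) q h3
  have hne : Nonempty (q.asIdeal.primesOver (𝓞 L)) := by
    by_contra hcon
    rw [not_nonempty_iff] at hcon
    rw [Finset.univ_eq_empty, Finset.sum_empty] at hsum
    omega
  obtain ⟨P⟩ := hne
  let cm : (τ : 𝓞 L ≃+* 𝓞 L) → (∀ x : 𝓞 K, τ (algebraMap (𝓞 K) (𝓞 L) x) =
      algebraMap (𝓞 K) (𝓞 L) x) → q.asIdeal.primesOver (𝓞 L) → q.asIdeal.primesOver (𝓞 L) :=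
    fun τ hτ R => ⟨R.1.comap τ, by
      have := R.2.1
      infer_instance, ⟨by
      ext x
      rw [Ideal.mem_comap, Ideal.mem_comap, hτ, mem_over]⟩⟩
  have hcm : ∀ τ hτ R (x : 𝓞 L), x ∈ (cm τ hτ R).1 ↔ τ x ∈ R.1 := fun τ hτ R x => Iff.rfl
  have hσ2 : ∀ x : 𝓞 K, (σ.trans σ) (algebraMap (𝓞 K) (𝓞 L) x) = algebraMap (𝓞 K) (𝓞 L) x := by
    intro x
    rw [RingEquiv.trans_apply, hσ, hσ]
  have hσβ2 : (σ.trans σ) β = algebraMap (𝓞 K) (𝓞 L) (w ^ 2) * β := by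
    rw [RingEquiv.trans_apply, hσβ, map_mul, hσ, hσβ, map_pow]
    ring
  have hw2 : (w ^ 2) ^ 2 + w ^ 2 + 1 = 0 := by
    linear_combination (w ^ 2 - w + 1) * hw
  have ne1 : ∀ R : q.asIdeal.primesOver (𝓞 L), R ≠ cm σ hσ R := by
    intro R h
    refine over_ne q R hβ hw hw σ hσ hσβ hcq h3q hc (fun x hx => ?_)
    rw [← hcm σ hσ, ← h]
    exact hx
  have ne2 : ∀ R : q.asIdeal.primesOver (𝓞 L), R ≠ cm (σ.trans σ) hσ2 R := by
    intro R h
    refine over_ne q R hβ hw hw2 (σ.trans σ) hσ2 hσβ2 hcq h3q hc (fun x hx => ?_)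
    rw [← hcm (σ.trans σ) hσ2, ← h]
    exact hx
  have hPP : cm (σ.trans σ) hσ2 P = cm σ hσ (cm σ hσ P) := rfl
  have hcard : 3 ≤ Fintype.card (q.asIdeal.primesOver (𝓞 L)) := by
    have h1 : ({P, cm σ hσ P, cm (σ.trans σ) hσ2 P} :
        Finset (q.asIdeal.primesOver (𝓞 L))).card = 3 := by
      rw [Finset.card_eq_three]
      exact ⟨P, cm σ hσ P, cm (σ.trans σ) hσ2 P, ne1 P, ne2 P, hPP ▸ ne1 (cm σ hσ P), rfl⟩
    rw [← h1]
    exact Finset.card_le_univ _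
  have hcard' : Fintype.card (q.asIdeal.primesOver (𝓞 L)) ≤ 3 := by
    rw [← hsum, Fintype.card_eq_sum_ones]
    refine Finset.sum_le_sum (fun P _ ↦ ?_)
    exact Nat.mul_le_mul (ef_pos q P).1 (ef_pos q P).2
  have hcard3 : Fintype.card (q.asIdeal.primesOver (𝓞 L)) = 3 := le_antisymm hcard' hcard
  have hf : ∀ Q : q.asIdeal.primesOver (𝓞 L), Q.1.inertiaDeg (𝓞 K) = 1 := by
    intro Q
    by_contra hcon
    have h3 : 2 ≤ Q.1.inertiaDeg (𝓞 K) := by have := (ef_pos q Q).2; omega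
    have h4 : ∑ Q : q.asIdeal.primesOver (𝓞 L), 1 <
        ∑ P : q.asIdeal.primesOver (𝓞 L), P.1.ramificationIdx (𝓞 K) * P.1.inertiaDeg (𝓞 K) := by
      refine Finset.sum_lt_sum (fun P _ ↦ ?_) ⟨Q, Finset.mem_univ _, ?_⟩
      · exact Nat.mul_le_mul (ef_pos q P).1 (ef_pos q P).2
      · have h5 := Nat.mul_le_mul (ef_pos q Q).1 h3
        omega
    rw [hsum, ← Fintype.card_eq_sum_ones, hcard3] at h4
    omega
  unfold lsum
  rw [Finset.sum_congr rfl (fun Q _ ↦ (by rw [wt_over, hf Q, pow_one] :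
    wt L s Q.1 = wt K s q.asIdeal)), Finset.sum_const, nsmul_eq_mul, Finset.card_univ, hcard3]
  norm_num

end Pool.Agent.Cub6
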