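import Pool.Agent.Cub6.Def
import Pool.Agent.Cub6.Split
import Pool.Agent.Cub6.Ext
import Pool.Agent.Cub6.Cyc
import Pool.Agent.Cub6.Fib

/-!
# The sum of the reciprocals of the bad primes diverges

Suppose it is summable. `K` from `exists_cyc`, `b = 6`, `L` from `exists_cubic`. `T`: the primes `q` of `𝓞 K` such that `c ^ 3 - 6` is not in `q` for all `c`; such a `q` lies over a rational prime `p` (`q ∩ ℤ`), and `p` is bad: a root of `x ^ 3 = 6` modulo `p` gives one modulo `q`. So the sum over `T` is at most `C` (`fib`). The primes `q` not in `T` with `6` not in `q` (so `3`, `b` not in `q`) satisfy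
`lsum L s q = 3 wt K s q` (`lsum_cubic`); those with `6` in `q` are finitely many (`finite_bad`, `wt ≤ 1`). `LP_eq_tsum`: `LP L s = ∑ lsum L s q ≥ 3 (LP K s - C - C')`, and `LP_log` for `K` and `L`: `log (1 / (s - 1)) + C₂ ≥ 3 (log (1 / (s - 1)) - C₁ - C - C')`, impossible for `s` near `1`.
-/

open NumberField IsDedekindDomain Filter Topology Finset

namespace Pool.Agent.Cub6

open Pool.Agent.Lib.Dedekind Pool.Agent.Lib.QuadSymbols

theorem over_bad {K : Type} [Field K] [NumberField K] (q : HeightOneSpectrum (𝓞 K))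
    (hq : ∀ c : 𝓞 K, c ^ 3 - 6 ∉ q.asIdeal) : ∃ p ∈ Bad, ((p : ℕ) : 𝓞 K) ∈ q.asIdeal := by
  have hqp : q.asIdeal.IsPrime := q.isPrime
  have : NeZero q.asIdeal := ⟨q.ne_bot⟩
  have hp : (Ideal.absNorm (Ideal.under ℤ q.asIdeal)).Prime := Nat.absNorm_under_prime q.asIdeal
  have hmem : ((Ideal.absNorm (Ideal.under ℤ q.asIdeal) : ℕ) : 𝓞 K) ∈ q.asIdeal := by
    have := Int.absNorm_under_mem (I := q.asIdeal)
    simpa using this
  set p := Ideal.absNorm (Ideal.under ℤ q.asIdeal) with hpdef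
  refine ⟨p, ⟨hp, fun c hc => ?_⟩, hmem⟩
  obtain ⟨m, rfl⟩ := ZMod.intCast_surjective c
  have h1 : ((m ^ 3 - 6 : ℤ) : ZMod p) = 0 := by
    push_cast
    rw [hc, sub_self]
  obtain ⟨k, hk⟩ := (ZMod.intCast_zmod_eq_zero_iff_dvd _ _).1 h1
  apply hq (m : 𝓞 K)
  have h2 : ((m : 𝓞 K)) ^ 3 - 6 = ((p : ℕ) : 𝓞 K) * (k : 𝓞 K) := by
    have := congrArg (Int.cast : ℤ → 𝓞 K) hk
    push_cast at this
    exact this
  rw [h2]
  exact Ideal.mul_mem_right _ _ hmem

theorem bad_div : ¬ Summable (Bad.indicator fun p : ℕ => (1 : ℝ) / p) := by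
  intro hs
  obtain ⟨K, _, _, w, hw, h2, h6⟩ := exists_cyc
  obtain ⟨L, _, _, _, β, σ, h3, hβ, hσ, hσβ⟩ := exists_cubic K 6 w hw (fun c => by
    have h6c : ((6 : 𝓞 K) : K) = 6 := map_ofNat (algebraMap (𝓞 K) K) 6
    rw [h6c]
    exact h6 c)
  let T : Set (HeightOneSpectrum (𝓞 K)) := {q | ∀ c : 𝓞 K, c ^ 3 - 6 ∉ q.asIdeal}
  obtain ⟨C, hC⟩ := fib K h2 (B := Bad) (fun p hp => hp.1) hs (T := T)
    (fun q hq => over_bad q hq)
  obtain ⟨C₁, hC₁⟩ := LP_log (F := K)
  obtain ⟨C₂, hC₂⟩ := LP_log (F := L)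
  have hfin : {q : HeightOneSpectrum (𝓞 K) | (6 : 𝓞 K) ∈ q.asIdeal}.Finite :=
    finite_bad (by norm_num)
  let S : Set (HeightOneSpectrum (𝓞 K)) := {q | (6 : 𝓞 K) ∈ q.asIdeal}
  let M : ℝ := ∑' q : HeightOneSpectrum (𝓞 K), S.indicator (fun _ => (1 : ℝ)) q
  have hSs : Summable (S.indicator (fun _ => (1 : ℝ)) : HeightOneSpectrum (𝓞 K) → ℝ) :=
    summable_of_hasFiniteSupport (hfin.subset (by
      intro q hq
      by_contra hcon
      exact hq (Set.indicator_of_notMem hcon _)))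
  -- the main inequality
  have key : ∀ s : ℝ, 1 < s → 3 * (LP K s - C - M) ≤ LP L s := by
    intro s hs1
    obtain ⟨hl, hle⟩ := LP_eq_tsum (K := K) (L := L) hs1
    have hKs : Summable (fun q : HeightOneSpectrum (𝓞 K) => wt K s q.asIdeal) :=
      summable_wt_prime hs1
    have hTs : Summable (T.indicator (fun q : HeightOneSpectrum (𝓞 K) => wt K s q.asIdeal)) :=
      hKs.indicator T
    have hpt : ∀ q : HeightOneSpectrum (𝓞 K),
        3 * (wt K s q.asIdeal - T.indicator (fun q => wt K s q.asIdeal) q -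
          S.indicator (fun _ => (1 : ℝ)) q) ≤ lsum L s q := by
      intro q
      have h0 : 0 ≤ lsum L s q := lsum_nonneg s q
      have hw0 : 0 ≤ wt K s q.asIdeal := wt_nonneg _ _
      have hw1 : wt K s q.asIdeal ≤ 1 := wt_le_one hs1 q
      by_cases hT : q ∈ T
      · rw [Set.indicator_of_mem hT]
        have : 0 ≤ S.indicator (fun _ => (1 : ℝ)) q :=
          Set.indicator_nonneg (fun _ _ => zero_le_one) q
        linarith
      · rw [Set.indicator_of_notMem hT]
        by_cases hS : q ∈ S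
        · rw [Set.indicator_of_mem hS]
          linarith
        · rw [Set.indicator_of_notMem hS]
          have hqp : q.asIdeal.IsPrime := q.isPrime
          have h3q : (3 : 𝓞 K) ∉ q.asIdeal := by
            intro h
            apply hS
            have : (6 : 𝓞 K) = 2 * 3 := by norm_num
            change (6 : 𝓞 K) ∈ q.asIdeal
            rw [this]
            exact Ideal.mul_mem_left _ _ h
          have hc : ∃ c : 𝓞 K, c ^ 3 - 6 ∈ q.asIdeal := by
            by_contra hcon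
            exact hT (fun c hc => hcon ⟨c, hc⟩)
          rw [lsum_cubic s q h3 hβ hw σ hσ hσβ hS h3q hc]
          linarith
    have h5 := (((hKs.sub hTs).sub hSs).mul_left 3).tsum_le_tsum hpt hl
    rw [tsum_mul_left, Summable.tsum_sub (hKs.sub hTs) hSs, Summable.tsum_sub hKs hTs, ← hle] at h5
    have h6' := hC s hs1
    have h7 : LP K s = ∑' q : HeightOneSpectrum (𝓞 K), wt K s q.asIdeal := rfl
    have h8 : 3 * (LP K s - C - M) ≤ 3 * (∑' q : HeightOneSpectrum (𝓞 K), wt K s q.asIdeal -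
        ∑' q : HeightOneSpectrum (𝓞 K), T.indicator (fun q => wt K s q.asIdeal) q - M) := by
      rw [h7]
      linarith
    exact h8.trans h5
  -- the logarithm tends to infinity
  have hlog : Tendsto (fun s : ℝ => Real.log (1 / (s - 1))) (𝓝[>] (1 : ℝ)) atTop := by
    refine Real.tendsto_log_atTop.comp ?_
    have h9 : Tendsto (fun s : ℝ => s - 1) (𝓝[>] (1 : ℝ)) (𝓝[>] 0) := by
      refine tendsto_nhdsWithin_iff.2 ⟨?_, ?_⟩
      · have : Tendsto (fun s : ℝ => s - 1) (𝓝 (1 : ℝ)) (𝓝 (1 - 1)) :=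
          (continuous_id.sub continuous_const).tendsto 1
        rw [sub_self] at this
        exact this.mono_left nhdsWithin_le_nhds
      · filter_upwards [self_mem_nhdsWithin] with s hs
        have hs' : (1 : ℝ) < s := hs
        exact sub_pos.2 hs'
    refine (tendsto_inv_nhdsGT_zero.comp h9).congr fun s => ?_
    simp [Function.comp, one_div]
  have hev := hlog.eventually_gt_atTop ((C₂ + 3 * C₁ + 3 * C + 3 * M) / 2)
  obtain ⟨s, hs1, hs2, hs3, hs4⟩ :=
    (hC₁.and (hC₂.and (hev.and self_mem_nhdsWithin))).exists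
  have hs5 : (1 : ℝ) < s := hs4
  have h10 := key s hs5
  have h11 := abs_le.1 hs1
  have h12 := abs_le.1 hs2
  linarith [h11.1, h12.2]

end Pool.Agent.Cub6
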