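import Pool.Agent.Cub6.Alg
import Pool.Agent.Cub6.Dens
import Pool.Agent.Cub6.Sum

/-!
# Almost all `z` and almost all `y` do not occur in a solution

`y` and `z - 1` have no divisor in `Bad` (`not_dvd`); `dens` with `bad_div`; for `z` shift by one: `z - 1` in `[- (N + 1), N + 1]`, `dens` with `ε / 2` and `N + 1 ≤ 2 N`.
-/

open Finset

namespace Pool.Agent.Cub6

open Classical in
theorem main {ε : ℝ} (hε : 0 < ε) : ∃ N0 : ℕ, ∀ N : ℕ, N0 ≤ N →
    (((Finset.Icc (-(N : ℤ)) N).filter fun z => ∃ x y : ℤ,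
      6 + x ^ 3 - y ^ 2 + y ^ 2 * z ^ 2 = 0).card : ℝ) ≤ ε * N ∧
    (((Finset.Icc (-(N : ℤ)) N).filter fun y => ∃ x z : ℤ,
      6 + x ^ 3 - y ^ 2 + y ^ 2 * z ^ 2 = 0).card : ℝ) ≤ ε * N := by
  obtain ⟨N1, h1⟩ := dens (fun p hp => hp.1) bad_div hε
  obtain ⟨N2, h2⟩ := dens (fun p hp => hp.1) bad_div (half_pos hε)
  refine ⟨max (max N1 N2) 1, fun N hN => ⟨?_, ?_⟩⟩
  · have hN2 : N2 ≤ N + 1 := by
      have := (le_max_right N1 N2).trans ((le_max_left _ _).trans hN)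
      omega
    have hN1 : (1 : ℝ) ≤ N := by exact_mod_cast (le_max_right _ _).trans hN
    have h3 := h2 (N + 1) hN2
    have h4 : ((Finset.Icc (-(N : ℤ)) N).filter fun z => ∃ x y : ℤ,
        6 + x ^ 3 - y ^ 2 + y ^ 2 * z ^ 2 = 0).card ≤
        ((Finset.Icc (-((N + 1 : ℕ) : ℤ)) ((N + 1 : ℕ) : ℤ)).filter fun m => ∀ p ∈ Bad, ¬ (p : ℤ) ∣ m).card := by
      apply Finset.card_le_card_of_injOn (fun z => z - 1)
      · intro z hz
        rw [mem_coe, mem_filter, mem_Icc] at hz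
        obtain ⟨⟨ha, hb⟩, x, y, hxy⟩ := hz
        show z - 1 ∈ _
        rw [mem_coe, mem_filter, mem_Icc]
        refine ⟨⟨?_, ?_⟩, fun p hp => (not_dvd hp hxy).2.1⟩
        · push_cast
          linarith
        · push_cast
          linarith
      · intro a _ b _ hab
        have : a - 1 = b - 1 := hab
        omega
    have h5 : (((Finset.Icc (-(N : ℤ)) N).filter fun z => ∃ x y : ℤ,
        6 + x ^ 3 - y ^ 2 + y ^ 2 * z ^ 2 = 0).card : ℝ) ≤ ε / 2 * ((N + 1 : ℕ) : ℝ) := by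
      refine le_trans ?_ h3
      exact_mod_cast h4
    push_cast at h5
    nlinarith
  · have hN1 : N1 ≤ N := (le_max_left N1 N2).trans ((le_max_left _ _).trans hN)
    refine le_trans ?_ (h1 N hN1)
    have h4 : ((Finset.Icc (-(N : ℤ)) N).filter fun y => ∃ x z : ℤ,
        6 + x ^ 3 - y ^ 2 + y ^ 2 * z ^ 2 = 0).card ≤
        ((Finset.Icc (-(N : ℤ)) N).filter fun m => ∀ p ∈ Bad, ¬ (p : ℤ) ∣ m).card := by
      apply Finset.card_le_card
      intro y hy
      rw [mem_filter] at hy ⊢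
      obtain ⟨ha, x, z, hxz⟩ := hy
      exact ⟨ha, fun p hp => (not_dvd hp hxz).1⟩
    exact_mod_cast h4

end Pool.Agent.Cub6
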